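import Mathlib

/-! Combinatorics of the spanning trees of `K₄`.  The edges are numbered `0, …, 5` such that
`{0,1}`, `{2,3}`, `{4,5}` are the pairs of opposite edges. -/

set_option autoImplicit false

namespace Q247.SP

/-- the spanning trees of `K₄`: all triples of edges but the four triangles -/
def trees : Finset (Finset (Fin 6)) :=
  (Finset.univ.powersetCard 3).filter
    (fun T => T ≠ {1, 3, 5} ∧ T ≠ {1, 2, 4} ∧ T ≠ {0, 3, 4} ∧ T ≠ {0, 2, 5})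

/-- the bonds of `K₄` -/
def coc : Finset (Finset (Fin 6)) :=
  {{0, 2, 4}, {0, 3, 5}, {1, 2, 5}, {1, 3, 4}, {2, 3, 4, 5}, {0, 1, 4, 5}, {0, 1, 2, 3}}

theorem trees_nonempty : trees.Nonempty := ⟨{0, 1, 2}, by decide⟩

theorem exch : ∀ T ∈ trees, ∀ T' ∈ trees, ∀ i ∈ T \ T', ∃ j ∈ T' \ T,
    insert j (T.erase i) ∈ trees := by decide +kernel

theorem F1 : ∀ T ∈ trees, ∀ C ∈ coc, ∃ e ∈ T, e ∈ C := by decide +kernel

theorem F2 : ∀ A : Finset (Fin 6), (∀ T ∈ trees, ¬ T ⊆ A) → ∃ C ∈ coc, ∀ e ∈ C, e ∉ A := by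
  decide +kernel

theorem F3 : ∀ C ∈ coc, ∀ e ∈ C, ∃ T ∈ trees, T ⊆ insert e Cᶜ := by decide +kernel

end Q247.SP
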