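import Mathlib

/-! Polymatroidal ideals, symbolic powers, linear resolutions, componentwise linear ideals. -/

set_option autoImplicit false

open MvPolynomial

namespace Q247.SP

/-- `B` is the set of bases of a discrete polymatroid on `Fin n`. -/
structure IsDiscretePolymatroid {n : ℕ} (B : Set (Fin n →₀ ℕ)) : Prop where
  nonempty : B.Nonempty
  finite : B.Finite
  sum_eq : ∀ u ∈ B, ∀ v ∈ B, ∑ i, u i = ∑ i, v i
  exchange : ∀ u ∈ B, ∀ v ∈ B, ∀ i, v i < u i →
    ∃ j, u j < v j ∧ u - Finsupp.single i 1 + Finsupp.single j 1 ∈ B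

/-- `I` is a polymatroidal ideal: it is generated by the monomials whose exponent vectors are the
bases of a discrete polymatroid.  (The bases have equal degrees, so these are the minimal monomial
generators.) -/
def IsPolymatroidal {K : Type*} [Field K] {n : ℕ} (I : Ideal (MvPolynomial (Fin n) K)) : Prop :=
  ∃ B : Set (Fin n →₀ ℕ), IsDiscretePolymatroid B ∧
    I = Ideal.span ((fun u => monomial u (1 : K)) '' B)

/-- The `k`-th symbolic power of `I`: the intersection, over the associated primes `P` of `I` (those
of the module `R ⧸ I`), of the contractions to `R` of the ideals `I ^ k R_P`. -/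
noncomputable def symbolicPower {R : Type*} [CommRing R] (I : Ideal R) (k : ℕ) : Ideal R :=
  ⨅ P : associatedPrimes R (R ⧸ I),
    ((I ^ k).map (algebraMap R (Localization.AtPrime P.1))).comap
      (algebraMap R (Localization.AtPrime P.1))

/-- The ideal generated by the homogeneous elements of degree `j` of `J`. -/
noncomputable def component {K : Type*} [Field K] {n : ℕ} (J : Ideal (MvPolynomial (Fin n) K)) (j : ℕ) :
    Ideal (MvPolynomial (Fin n) K) :=
  Ideal.span {f | f ∈ J ∧ f.IsHomogeneous j}

/-- The ideal `J` of `S = K[x_1, …, x_n]` is generated by homogeneous elements `g a` of degree `d` and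
has a linear (minimal free) resolution: there is a finite exact sequence
`0 → ⋯ → S ^ (b 2) → S ^ (b 1) → S ^ (b 0) → J → 0` whose maps are given by the row `g` and by
matrices `D i` whose entries are linear forms (homogeneous of degree `1`, or zero). -/
def HasLinearResolution {K : Type*} [Field K] {n : ℕ} (J : Ideal (MvPolynomial (Fin n) K))
    (d : ℕ) : Prop :=
  ∃ (b : ℕ → ℕ) (g : Fin (b 0) → MvPolynomial (Fin n) K)
    (D : (i : ℕ) → Matrix (Fin (b i)) (Fin (b (i + 1))) (MvPolynomial (Fin n) K)),
    (∀ a, (g a).IsHomogeneous d) ∧ (∀ i a c, (D i a c).IsHomogeneous 1) ∧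
    Ideal.span (Set.range g) = J ∧
    (∀ v : Fin (b 0) → MvPolynomial (Fin n) K,
      ∑ a, v a * g a = 0 ↔ ∃ w, v = (D 0).mulVec w) ∧
    (∀ i, ∀ v : Fin (b (i + 1)) → MvPolynomial (Fin n) K,
      (D i).mulVec v = 0 ↔ ∃ w, v = (D (i + 1)).mulVec w) ∧
    ∃ N, ∀ i ≥ N, b i = 0

/-- `J` is componentwise linear. -/
def IsComponentwiseLinear {K : Type*} [Field K] {n : ℕ} (J : Ideal (MvPolynomial (Fin n) K)) :
    Prop :=
  ∀ j, HasLinearResolution (component J j) j

end Q247.SP
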