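import Mathlib
import Pool.Agent.Q247.SP.Defs
import Pool.Agent.Q247.SP.Comb

/-! The degree four part of the second symbolic power of the spanning tree ideal of `K₄`. -/

set_option autoImplicit false

open MvPolynomial

namespace Q247.SP

/-- indicator exponent vector -/
noncomputable def ind (A : Finset (Fin 6)) : Fin 6 →₀ ℕ :=
  Finsupp.equivFunOnFinite.symm (fun i => if i ∈ A then 1 else 0)

theorem ind_apply (A : Finset (Fin 6)) (i : Fin 6) : ind A i = if i ∈ A then 1 else 0 := rfl

theorem ind_le_iff (A : Finset (Fin 6)) (m : Fin 6 →₀ ℕ) : ind A ≤ m ↔ ∀ i ∈ A, m i ≠ 0 := by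
  rw [Finsupp.le_def]
  constructor
  · intro h i hi
    have := h i
    rw [ind_apply, if_pos hi] at this
    omega
  · intro h i
    rw [ind_apply]
    split_ifs with hi
    · have := h i hi
      omega
    · exact Nat.zero_le _

/-- the bases -/
def bases : Set (Fin 6 →₀ ℕ) := ind '' (trees : Set (Finset (Fin 6)))

theorem trees_card (T : Finset (Fin 6)) (hT : T ∈ trees) : T.card = 3 := by
  unfold trees at hT
  exact (Finset.mem_powersetCard.1 (Finset.mem_filter.1 hT).1).2

theorem isDiscretePolymatroid_bases : IsDiscretePolymatroid bases := by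
  refine ⟨?_, ?_, ?_, ?_⟩
  · obtain ⟨T, hT⟩ := trees_nonempty
    exact ⟨ind T, T, hT, rfl⟩
  · exact (Finset.finite_toSet trees).image _
  · have h : ∀ u ∈ bases, ∑ i, u i = 3 := by
      rintro _ ⟨T, hT, rfl⟩
      have h1 : ∑ i, ind T i = ∑ i, if i ∈ T then 1 else 0 := rfl
      rw [h1, Finset.sum_ite_mem, Finset.univ_inter, Finset.sum_const, smul_eq_mul, mul_one]
      exact trees_card T hT
    intro u hu v hv
    rw [h u hu, h v hv]
  · rintro _ ⟨T, hT, rfl⟩ _ ⟨T', hT', rfl⟩ i hi
    have hiT : i ∈ T \ T' := by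
      rw [ind_apply, ind_apply] at hi
      rw [Finset.mem_sdiff]
      by_cases h1 : i ∈ T <;> by_cases h2 : i ∈ T' <;> simp_all
    obtain ⟨j, hj, hjT⟩ := exch T hT T' hT' i hiT
    rw [Finset.mem_sdiff] at hj hiT
    refine ⟨j, ?_, ?_⟩
    · rw [ind_apply, ind_apply, if_neg hj.2, if_pos hj.1]
      exact Nat.zero_lt_one
    · refine ⟨insert j (T.erase i), hjT, ?_⟩
      ext k
      rw [Finsupp.add_apply, Finsupp.tsub_apply, ind_apply, ind_apply, Finsupp.single_apply,
        Finsupp.single_apply]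
      have hij : i ≠ j := by
        rintro rfl
        exact hj.2 hiT.1
      by_cases h1 : i = k
      · subst h1
        have h2 : i ∉ insert j (T.erase i) := by
          rw [Finset.mem_insert]
          rintro (h | h)
          · exact hij h
          · exact Finset.notMem_erase _ _ h
        rw [if_neg h2, if_pos hiT.1, if_pos rfl, if_neg (Ne.symm hij)]
        rfl
      · by_cases h3 : j = k
        · subst h3
          rw [if_pos (Finset.mem_insert_self _ _), if_neg hj.2, if_neg h1, if_pos rfl]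
          rfl
        · have h4 : k ∈ insert j (T.erase i) ↔ k ∈ T := by
            rw [Finset.mem_insert, Finset.mem_erase]
            constructor
            · rintro (h | h)
              · exact absurd h.symm h3
              · exact h.2
            · intro h
              exact Or.inr ⟨Ne.symm h1, h⟩
          rw [if_neg h1, if_neg h3]
          by_cases h5 : k ∈ T
          · rw [if_pos h5, if_pos (h4.2 h5)]
            rfl
          · rw [if_neg h5, if_neg (fun h => h5 (h4.1 h))]
            rfl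

variable (K : Type*) [Field K]

/-- the spanning tree ideal of `K₄` -/
noncomputable def I₀ : Ideal (MvPolynomial (Fin 6) K) :=
  Ideal.span ((fun u => monomial u (1 : K)) '' bases)

theorem isPolymatroidal_I₀ : IsPolymatroidal (I₀ K) := ⟨bases, isDiscretePolymatroid_bases, rfl⟩

variable {K}

theorem mem_I₀ (f : MvPolynomial (Fin 6) K) :
    f ∈ I₀ K ↔ ∀ m ∈ f.support, ∃ T ∈ trees, ind T ≤ m := by
  unfold I₀
  rw [mem_ideal_span_monomial_image]
  constructor
  · intro h m hm
    obtain ⟨_, ⟨T, hT, rfl⟩, hle⟩ := h m hm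
    exact ⟨T, hT, hle⟩
  · intro h m hm
    obtain ⟨T, hT, hle⟩ := h m hm
    exact ⟨ind T, ⟨T, hT, rfl⟩, hle⟩

/-- the weight of an exponent vector on `E` -/
def wt (E : Finset (Fin 6)) (m : Fin 6 →₀ ℕ) : ℕ := ∑ i ∈ E, m i

theorem wt_add (E : Finset (Fin 6)) (m m' : Fin 6 →₀ ℕ) : wt E (m + m') = wt E m + wt E m' := by
  unfold wt
  rw [← Finset.sum_add_distrib]
  rfl

/-- the grading by the weight on `E` -/
noncomputable def phi (E : Finset (Fin 6)) :
    MvPolynomial (Fin 6) K →ₐ[K] Polynomial (MvPolynomial (Fin 6) K) :=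
  aeval (fun i => if i ∈ E then Polynomial.X * Polynomial.C (X i) else Polynomial.C (X i))

theorem phi_monomial (E : Finset (Fin 6)) (m : Fin 6 →₀ ℕ) (c : K) :
    phi E (monomial m c) = Polynomial.X ^ (wt E m) * Polynomial.C (monomial m c) := by
  unfold phi
  rw [aeval_monomial]
  have h1 : (m.prod fun i k => (if i ∈ E then Polynomial.X * Polynomial.C (X i)
      else Polynomial.C (X i) : Polynomial (MvPolynomial (Fin 6) K)) ^ k) =
      Polynomial.X ^ (wt E m) * Polynomial.C (monomial m (1 : K)) := by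
    rw [Finsupp.prod_fintype _ _ (fun i => pow_zero _)]
    have h2 : ∀ i : Fin 6, (if i ∈ E then Polynomial.X * Polynomial.C (X i)
      else Polynomial.C (X i) : Polynomial (MvPolynomial (Fin 6) K)) ^ (m i) =
      (if i ∈ E then Polynomial.X ^ (m i) else 1) * Polynomial.C (X i ^ (m i)) := by
      intro i
      split_ifs
      · rw [mul_pow, Polynomial.C_pow]
      · rw [one_mul, Polynomial.C_pow]
    rw [Finset.prod_congr rfl (fun i _ => h2 i), Finset.prod_mul_distrib]
    congr 1
    · rw [Finset.prod_ite_mem, Finset.univ_inter, Finset.prod_pow_eq_pow_sum]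
      rfl
    · rw [← map_prod]
      congr 1
      rw [monomial_eq, C_1, one_mul, Finsupp.prod_fintype _ _ (fun i => pow_zero _)]
  rw [h1]
  have h3 : (algebraMap K (Polynomial (MvPolynomial (Fin 6) K))) c =
      Polynomial.C (C c) := rfl
  rw [h3]
  have h4 : (monomial m c : MvPolynomial (Fin 6) K) = C c * monomial m 1 := by
    rw [C_mul_monomial, mul_one]
  rw [h4, Polynomial.C_mul]
  ring

theorem coeff_phi (E : Finset (Fin 6)) (f : MvPolynomial (Fin 6) K) (w : ℕ) (m : Fin 6 →₀ ℕ) :
    coeff m ((phi E f).coeff w) = if wt E m = w then coeff m f else 0 := by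
  classical
  have hmon : ∀ (m' : Fin 6 →₀ ℕ) (c : K),
      coeff m ((phi E (monomial m' c)).coeff w) = if wt E m = w then coeff m (monomial m' c) else 0 := by
    intro m' c
    rw [phi_monomial, mul_comm, Polynomial.coeff_C_mul_X_pow]
    by_cases h : w = wt E m'
    · rw [if_pos h, coeff_monomial]
      by_cases h2 : m' = m
      · subst h2
        rw [if_pos rfl, if_pos h.symm]
      · rw [if_neg h2, ite_self]
    · rw [if_neg h, coeff_zero, coeff_monomial]
      by_cases h2 : m' = m
      · subst h2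
        rw [if_neg (Ne.symm h)]
      · rw [if_neg h2, ite_self]
  induction f using MvPolynomial.monomial_add_induction_on with
  | C a => exact hmon 0 a
  | monomial_add m' b f hm' hb ih =>
    rw [map_add, Polynomial.coeff_add, coeff_add, ih, hmon, coeff_add]
    split_ifs
    · rfl
    · rw [add_zero]

/-- divisibility by `X ^ k` after the substitution -/
theorem X_pow_dvd_phi (E : Finset (Fin 6)) (f : MvPolynomial (Fin 6) K) (k : ℕ) :
    Polynomial.X ^ k ∣ phi E f ↔ ∀ m ∈ f.support, k ≤ wt E m := by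
  rw [Polynomial.X_pow_dvd_iff]
  constructor
  · intro h m hm
    by_contra hlt
    push Not at hlt
    have h1 := coeff_phi E f (wt E m) m
    rw [if_pos rfl, h _ hlt, coeff_zero] at h1
    exact (mem_support_iff.1 hm) h1.symm
  · intro h d hd
    ext m
    rw [coeff_phi, coeff_zero]
    split_ifs with h1
    · by_contra h2
      have := h m (mem_support_iff.2 h2)
      omega
    · rfl

/-- the prime of the bond `E` -/
noncomputable def PE (E : Finset (Fin 6)) : Ideal (MvPolynomial (Fin 6) K) :=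
  Ideal.comap (phi E) (Ideal.span {Polynomial.X})

theorem mem_PE (E : Finset (Fin 6)) (f : MvPolynomial (Fin 6) K) :
    f ∈ PE E ↔ ∀ m ∈ f.support, 1 ≤ wt E m := by
  unfold PE
  rw [Ideal.mem_comap, Ideal.mem_span_singleton, ← X_pow_dvd_phi, pow_one]

theorem isPrime_PE (E : Finset (Fin 6)) : (PE E : Ideal (MvPolynomial (Fin 6) K)).IsPrime := by
  unfold PE
  have h : (Ideal.span {(Polynomial.X : Polynomial (MvPolynomial (Fin 6) K))}).IsPrime :=
    (Ideal.span_singleton_prime Polynomial.X_ne_zero).2 Polynomial.prime_X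
  exact Ideal.comap_isPrime _ _

theorem wt_pos_iff (E : Finset (Fin 6)) (m : Fin 6 →₀ ℕ) : 1 ≤ wt E m ↔ ∃ e ∈ E, m e ≠ 0 := by
  unfold wt
  rw [Nat.one_le_iff_ne_zero, Ne, Finset.sum_eq_zero_iff]
  push Not
  rfl

theorem I₀_le_PE (E : Finset (Fin 6)) (hE : E ∈ coc) : I₀ K ≤ PE E := by
  intro f hf
  rw [mem_I₀] at hf
  rw [mem_PE]
  intro m hm
  obtain ⟨T, hT, hle⟩ := hf m hm
  obtain ⟨e, heT, heE⟩ := F1 T hT E hE
  rw [wt_pos_iff]
  exact ⟨e, heE, (ind_le_iff T m).1 hle e heT⟩

/-- elements of the second symbolic power have weight at least two on all bonds -/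
theorem wt_of_mem (E : Finset (Fin 6)) (hE : E ∈ coc) (f s : MvPolynomial (Fin 6) K)
    (hs : s ∉ PE E) (hf : s * f ∈ I₀ K ^ 2) : ∀ m ∈ f.support, 2 ≤ wt E m := by
  rw [← X_pow_dvd_phi]
  have h1 : I₀ K ^ 2 ≤ Ideal.comap (phi E) (Ideal.span {Polynomial.X ^ 2}) := by
    have h2 : (I₀ K).map (phi E) ≤ Ideal.span {Polynomial.X} :=
      Ideal.map_le_iff_le_comap.2 (I₀_le_PE E hE)
    rw [← Ideal.map_le_iff_le_comap, Ideal.map_pow]
    refine (Ideal.pow_right_mono h2 2).trans ?_
    rw [Ideal.span_singleton_pow]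
  have h3 := h1 hf
  rw [Ideal.mem_comap, Ideal.mem_span_singleton, map_mul] at h3
  refine Prime.pow_dvd_of_dvd_mul_left Polynomial.prime_X 2 ?_ h3
  intro h4
  apply hs
  unfold PE
  rw [Ideal.mem_comap, Ideal.mem_span_singleton]
  exact h4

/-- the prime of a bond is associated -/
theorem PE_mem_associatedPrimes (E : Finset (Fin 6)) (hE : E ∈ coc) :
    (PE E : Ideal (MvPolynomial (Fin 6) K)) ∈
      associatedPrimes (MvPolynomial (Fin 6) K) (MvPolynomial (Fin 6) K ⧸ I₀ K) := by
  rw [AssociatedPrimes.mem_iff, isAssociatedPrime_iff]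
  refine ⟨isPrime_PE E, Ideal.Quotient.mk _ (monomial (ind Eᶜ) 1), ?_⟩
  ext g
  rw [Submodule.mem_colon_singleton, Submodule.mem_bot]
  have h0 : g • (Ideal.Quotient.mk (I₀ K)) (monomial (ind Eᶜ) 1) =
      Ideal.Quotient.mk (I₀ K) (g * monomial (ind Eᶜ) 1) := rfl
  rw [h0, Ideal.Quotient.eq_zero_iff_mem, mem_I₀, mem_PE]
  constructor
  · intro h m' hm'
    rw [mem_support_iff, coeff_mul_monomial'] at hm'
    split_ifs at hm' with hle
    · rw [mul_one] at hm'
      have h1 := h _ (mem_support_iff.2 hm')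
      rw [wt_pos_iff] at h1
      obtain ⟨e, heE, he⟩ := h1
      obtain ⟨T, hT, hTe⟩ := F3 E hE e heE
      refine ⟨T, hT, ?_⟩
      rw [ind_le_iff]
      intro i hi
      rcases Finset.mem_insert.1 (hTe hi) with rfl | h2
      · intro h3
        apply he
        rw [Finsupp.tsub_apply, h3]
        exact Nat.zero_sub _
      · have := (ind_le_iff _ _).1 hle i h2
        exact this
    · exact absurd rfl hm'
  · intro h m hm
    have h1 : m + ind Eᶜ ∈ (g * monomial (ind Eᶜ) 1).support := by
      rw [mem_support_iff, coeff_mul_monomial, mul_one]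
      exact mem_support_iff.1 hm
    obtain ⟨T, hT, hle⟩ := h _ h1
    obtain ⟨e, heT, heE⟩ := F1 T hT E hE
    rw [wt_pos_iff]
    refine ⟨e, heE, ?_⟩
    have h2 := (ind_le_iff _ _).1 hle e heT
    rw [Finsupp.add_apply, ind_apply, if_neg (by simpa using heE), add_zero] at h2
    exact h2

/-- every associated prime is contained in the prime of a bond -/
theorem exists_le_PE (P : Ideal (MvPolynomial (Fin 6) K))
    (hP : P ∈ associatedPrimes (MvPolynomial (Fin 6) K) (MvPolynomial (Fin 6) K ⧸ I₀ K)) :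
    ∃ E ∈ coc, P ≤ PE E := by
  classical
  rw [AssociatedPrimes.mem_iff, isAssociatedPrime_iff] at hP
  obtain ⟨hPp, x, hx⟩ := hP
  obtain ⟨f, rfl⟩ := Ideal.Quotient.mk_surjective x
  have hmem : ∀ g, g ∈ P ↔ g * f ∈ I₀ K := by
    intro g
    rw [hx, Submodule.mem_colon_singleton, Submodule.mem_bot]
    have h0 : g • (Ideal.Quotient.mk (I₀ K)) f = Ideal.Quotient.mk (I₀ K) (g * f) := rfl
    rw [h0, Ideal.Quotient.eq_zero_iff_mem]
  have hf : f ∉ I₀ K := by
    intro h
    apply hPp.ne_top
    rw [Ideal.eq_top_iff_one, hmem, one_mul]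
    exact h
  rw [mem_I₀] at hf
  push Not at hf
  obtain ⟨m, hm, hmT⟩ := hf
  obtain ⟨E, hE, hEm⟩ := F2 m.support (by
    intro T hT hsub
    apply hmT T hT
    rw [ind_le_iff]
    intro i hi
    exact Finsupp.mem_support_iff.1 (hsub hi))
  refine ⟨E, hE, ?_⟩
  have hfE : f ∉ PE E := by
    rw [mem_PE]
    push Not
    refine ⟨m, hm, ?_⟩
    by_contra h
    push Not at h
    obtain ⟨e, he, hne⟩ := (wt_pos_iff E m).1 h
    exact hEm e he (Finsupp.mem_support_iff.2 hne)
  intro g hg
  have h1 := I₀_le_PE E hE ((hmem g).1 hg)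
  exact ((isPrime_PE E).mem_or_mem h1).resolve_right hfE

end Q247.SP
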