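import Mathlib
import Pool.Agent.Q247.SP.Symb

/-! The second symbolic power of the spanning tree ideal of `K₄` is not componentwise linear. -/

set_option autoImplicit false

open MvPolynomial

namespace Q247.SP

/-- the three Hamilton cycles -/
def ham : Fin 3 → Finset (Fin 6) := ![{2, 3, 4, 5}, {0, 1, 4, 5}, {0, 1, 2, 3}]

theorem F5 : ∀ E ∈ coc, ∀ k : Fin 3, ∃ T ∈ trees, ∃ T' ∈ trees, ∀ e : Fin 6,
    (if e ∈ T then 1 else 0) + (if e ∈ T' then 1 else 0) ≤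
      2 * (if e ∈ Eᶜ then 1 else 0) + (if e ∈ ham k then 1 else 0) := by decide +kernel

variable {K : Type*} [Field K]

/-- the monomials of the Hamilton cycles -/
noncomputable def hc (k : Fin 3) : MvPolynomial (Fin 6) K := monomial (ind (ham k)) 1

theorem mem_symbolicPower (f : MvPolynomial (Fin 6) K) :
    f ∈ symbolicPower (I₀ K) 2 ↔
      ∀ P : associatedPrimes (MvPolynomial (Fin 6) K) (MvPolynomial (Fin 6) K ⧸ I₀ K),
        ∃ s ∉ P.1, s * f ∈ I₀ K ^ 2 := by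
  unfold symbolicPower
  rw [Ideal.mem_iInf]
  refine forall_congr' fun P => ?_
  rw [Ideal.mem_comap, IsLocalization.algebraMap_mem_map_algebraMap_iff P.1.primeCompl]
  rfl

theorem hc_mem (k : Fin 3) : (hc k : MvPolynomial (Fin 6) K) ∈ symbolicPower (I₀ K) 2 := by
  rw [mem_symbolicPower]
  rintro ⟨P, hP⟩
  obtain ⟨E, hE, hPE⟩ := exists_le_PE P hP
  refine ⟨monomial (2 • ind Eᶜ) 1, ?_, ?_⟩
  · intro h
    have h1 := hPE h
    rw [mem_PE] at h1
    have h2 := h1 (2 • ind Eᶜ) (by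
      rw [mem_support_iff, coeff_monomial, if_pos rfl]
      exact one_ne_zero)
    obtain ⟨e, he, hne⟩ := (wt_pos_iff _ _).1 h2
    apply hne
    rw [Finsupp.smul_apply, ind_apply, if_neg (by simpa using he), smul_zero]
  · obtain ⟨T, hT, T', hT', hle⟩ := F5 E hE k
    unfold hc
    rw [monomial_mul, one_mul]
    have h1 : ind T + ind T' ≤ 2 • ind Eᶜ + ind (ham k) := by
      rw [Finsupp.le_def]
      intro e
      rw [Finsupp.add_apply, Finsupp.add_apply, Finsupp.smul_apply, ind_apply, ind_apply,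
        ind_apply, ind_apply, smul_eq_mul]
      exact hle e
    obtain ⟨r, hr⟩ := exists_add_of_le h1
    rw [hr]
    have h2 : (monomial (ind T + ind T' + r) 1 : MvPolynomial (Fin 6) K) =
        (monomial (ind T) 1 * monomial (ind T') 1) * monomial r 1 := by
      rw [monomial_mul, monomial_mul, one_mul, one_mul]
    rw [h2, pow_two]
    refine Ideal.mul_mem_right _ _ (Ideal.mul_mem_mul ?_ ?_)
    · exact Ideal.subset_span ⟨ind T, ⟨T, hT, rfl⟩, rfl⟩
    · exact Ideal.subset_span ⟨ind T', ⟨T', hT', rfl⟩, rfl⟩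

theorem hc_homog (k : Fin 3) : (hc k : MvPolynomial (Fin 6) K).IsHomogeneous 4 := by
  unfold hc
  refine isHomogeneous_monomial _ ?_
  rw [Finsupp.degree_eq_sum]
  fin_cases k <;> rfl

theorem arith (a b c d e f : ℕ) (hdeg : a + b + c + d + e + f = 4)
    (e1 : 2 ≤ a + (c + e)) (e2 : 2 ≤ a + (d + f)) (e3 : 2 ≤ b + (c + f)) (e4 : 2 ≤ b + (d + e))
    (e5 : 2 ≤ c + (d + (e + f))) (e6 : 2 ≤ a + (b + (e + f))) (e7 : 2 ≤ a + (b + (c + d))) :
    (a = 0 ∧ b = 0 ∧ c = 1 ∧ d = 1 ∧ e = 1 ∧ f = 1) ∨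
    (a = 1 ∧ b = 1 ∧ c = 0 ∧ d = 0 ∧ e = 1 ∧ f = 1) ∨
    (a = 1 ∧ b = 1 ∧ c = 1 ∧ d = 1 ∧ e = 0 ∧ f = 0) := by
  have h1 : a = b := by omega
  have h2 : c = d := by omega
  have h3 : e = f := by omega
  subst h1 h2 h3
  have h4 : a + c + e = 2 := by omega
  have h5 : a ≤ 1 := by omega
  have h6 : c ≤ 1 := by omega
  have h7 : e ≤ 1 := by omega
  clear e1 e2 e3 e4 e5 e6 e7 hdeg
  interval_cases a <;> interval_cases c <;> interval_cases e <;> simp_all

theorem hinj0 : ∀ k l : Fin 3,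
    (if (0 : Fin 6) ∈ ham k then 1 else 0 : ℕ) = (if (0 : Fin 6) ∈ ham l then 1 else 0) →
    (if (2 : Fin 6) ∈ ham k then 1 else 0 : ℕ) = (if (2 : Fin 6) ∈ ham l then 1 else 0) →
    (if (4 : Fin 6) ∈ ham k then 1 else 0 : ℕ) = (if (4 : Fin 6) ∈ ham l then 1 else 0) →
    k = l := by decide

/-- the degree four part of the second symbolic power -/
theorem eq_combination (f : MvPolynomial (Fin 6) K) (hf : f ∈ symbolicPower (I₀ K) 2)
    (h4 : f.IsHomogeneous 4) : f = ∑ k, C (coeff (ind (ham k)) f) * hc k := by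
  classical
  rw [mem_symbolicPower] at hf
  have hw : ∀ E ∈ coc, ∀ m ∈ f.support, 2 ≤ wt E m := by
    intro E hE
    obtain ⟨s, hs, hsf⟩ := hf ⟨PE E, PE_mem_associatedPrimes E hE⟩
    exact wt_of_mem E hE f s hs hsf
  have hm : ∀ m ∈ f.support, ∃ k, m = ind (ham k) := by
    intro m hm
    have hdeg : ∑ i, m i = 4 := by
      have := h4 (mem_support_iff.1 hm)
      rw [← Finsupp.degree_eq_sum]
      rw [← this]
      rw [Finsupp.degree_eq_weight_one]
      rfl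
    have e1 := hw {0, 2, 4} (by decide) m hm
    have e2 := hw {0, 3, 5} (by decide) m hm
    have e3 := hw {1, 2, 5} (by decide) m hm
    have e4 := hw {1, 3, 4} (by decide) m hm
    have e5 := hw {2, 3, 4, 5} (by decide) m hm
    have e6 := hw {0, 1, 4, 5} (by decide) m hm
    have e7 := hw {0, 1, 2, 3} (by decide) m hm
    unfold wt at e1 e2 e3 e4 e5 e6 e7
    rw [Fin.sum_univ_six] at hdeg
    have s1 : ∑ i ∈ ({0, 2, 4} : Finset (Fin 6)), m i = m 0 + (m 2 + m 4) := rfl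
    have s2 : ∑ i ∈ ({0, 3, 5} : Finset (Fin 6)), m i = m 0 + (m 3 + m 5) := rfl
    have s3 : ∑ i ∈ ({1, 2, 5} : Finset (Fin 6)), m i = m 1 + (m 2 + m 5) := rfl
    have s4 : ∑ i ∈ ({1, 3, 4} : Finset (Fin 6)), m i = m 1 + (m 3 + m 4) := rfl
    have s5 : ∑ i ∈ ({2, 3, 4, 5} : Finset (Fin 6)), m i = m 2 + (m 3 + (m 4 + m 5)) := rfl
    have s6 : ∑ i ∈ ({0, 1, 4, 5} : Finset (Fin 6)), m i = m 0 + (m 1 + (m 4 + m 5)) := rfl
    have s7 : ∑ i ∈ ({0, 1, 2, 3} : Finset (Fin 6)), m i = m 0 + (m 1 + (m 2 + m 3)) := rfl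
    rw [s1] at e1
    rw [s2] at e2
    rw [s3] at e3
    rw [s4] at e4
    rw [s5] at e5
    rw [s6] at e6
    rw [s7] at e7
    have key : (m 0 = 0 ∧ m 1 = 0 ∧ m 2 = 1 ∧ m 3 = 1 ∧ m 4 = 1 ∧ m 5 = 1) ∨
        (m 0 = 1 ∧ m 1 = 1 ∧ m 2 = 0 ∧ m 3 = 0 ∧ m 4 = 1 ∧ m 5 = 1) ∨
        (m 0 = 1 ∧ m 1 = 1 ∧ m 2 = 1 ∧ m 3 = 1 ∧ m 4 = 0 ∧ m 5 = 0) :=
      arith _ _ _ _ _ _ hdeg e1 e2 e3 e4 e5 e6 e7
    have v0 : ∀ i, (if i ∈ ham 0 then 1 else 0 : ℕ) = ![0, 0, 1, 1, 1, 1] i := by decide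
    have v1 : ∀ i, (if i ∈ ham 1 then 1 else 0 : ℕ) = ![1, 1, 0, 0, 1, 1] i := by decide
    have v2 : ∀ i, (if i ∈ ham 2 then 1 else 0 : ℕ) = ![1, 1, 1, 1, 0, 0] i := by decide
    have fin6 : ∀ (a : Fin 6 → ℕ), m 0 = a 0 → m 1 = a 1 → m 2 = a 2 → m 3 = a 3 → m 4 = a 4 →
        m 5 = a 5 → ∀ i, m i = a i := by
      intro a h0 h1 h2 h3 h4 h5 i
      match i with
      | 0 => exact h0
      | 1 => exact h1
      | 2 => exact h2
      | 3 => exact h3
      | 4 => exact h4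
      | 5 => exact h5
    rcases key with ⟨h0, h1, h2, h3, h4, h5⟩ | ⟨h0, h1, h2, h3, h4, h5⟩ | ⟨h0, h1, h2, h3, h4, h5⟩
    · refine ⟨0, ?_⟩
      ext i
      rw [ind_apply, v0]
      exact fin6 _ h0 h1 h2 h3 h4 h5 i
    · refine ⟨1, ?_⟩
      ext i
      rw [ind_apply, v1]
      exact fin6 _ h0 h1 h2 h3 h4 h5 i
    · refine ⟨2, ?_⟩
      ext i
      rw [ind_apply, v2]
      exact fin6 _ h0 h1 h2 h3 h4 h5 i
  have hinj : ∀ k l : Fin 3, ind (ham k) = ind (ham l) → k = l := by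
    intro k l h
    have h0 := DFunLike.congr_fun h 0
    have h2 := DFunLike.congr_fun h 2
    have h4 := DFunLike.congr_fun h 4
    rw [ind_apply, ind_apply] at h0 h2 h4
    exact hinj0 k l h0 h2 h4
  ext m
  rw [coeff_sum]
  simp only [hc, coeff_C_mul, coeff_monomial, mul_ite, mul_one, mul_zero]
  by_cases hms : m ∈ f.support
  · obtain ⟨k, rfl⟩ := hm m hms
    rw [Finset.sum_eq_single k]
    · rw [if_pos rfl]
    · intro l _ hl
      rw [if_neg (fun h => hl (hinj l k h))]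
    · intro h
      exact absurd (Finset.mem_univ k) h
  · rw [notMem_support_iff.1 hms]
    symm
    refine Finset.sum_eq_zero fun k _ => ?_
    split_ifs with h
    · subst h
      exact notMem_support_iff.1 hms
    · rfl

end Q247.SP
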