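import Mathlib
import Pool.Agent.Q247.SP.Main

/-! The second symbolic power of the spanning tree ideal of `K₄` is not componentwise linear. -/

set_option autoImplicit false

open MvPolynomial

namespace Q247.SP

variable {K : Type*} [Field K]

/-- there are no linear relations between the Hamilton cycles (first coefficient) -/
theorem linear_rel (M : Fin 3 → MvPolynomial (Fin 6) K) (hM : ∀ k, (M k).IsHomogeneous 1)
    (h : ∑ k, M k * hc k = 0) : M 0 = 0 := by
  ext m
  rw [coeff_zero]
  by_contra hm
  have hdeg : ∑ i, m i = 1 := by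
    have := hM 0 hm
    rw [← Finsupp.degree_eq_sum, ← this, Finsupp.degree_eq_weight_one]
    rfl
  have h1 : coeff (m + ind (ham 0)) (∑ k, M k * hc k) = 0 := by rw [h, coeff_zero]
  rw [Fin.sum_univ_three, coeff_add, coeff_add] at h1
  unfold hc at h1
  rw [coeff_mul_monomial, coeff_mul_monomial', coeff_mul_monomial', mul_one] at h1
  rw [Fin.sum_univ_six] at hdeg
  have h2 : ∀ k : Fin 3, 0 ∈ ham k → 1 ∈ ham k → ¬ ind (ham k) ≤ m + ind (ham 0) := by
    intro k h0 h1 hle
    rw [ind_le_iff] at hle
    have a0 := hle 0 h0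
    have a1 := hle 1 h1
    rw [Finsupp.add_apply, ind_apply, if_neg (by decide), add_zero] at a0 a1
    omega
  rw [if_neg (h2 1 (by decide) (by decide)), if_neg (h2 2 (by decide) (by decide)), add_zero,
    add_zero] at h1
  exact hm h1

theorem comp_mul (v g : MvPolynomial (Fin 6) K) (hg : g.IsHomogeneous 4) :
    homogeneousComponent 4 (v * g) = C (coeff 0 v) * g := by
  have h1 : v * g = ∑ i ∈ Finset.range (v.totalDegree + 1), homogeneousComponent i v * g := by
    rw [← Finset.sum_mul, sum_homogeneousComponent]
  rw [h1, map_sum]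
  have h2 : ∀ i, homogeneousComponent 4 (homogeneousComponent i v * g) =
      if i = 0 then C (coeff 0 v) * g else 0 := by
    intro i
    have h3 : (homogeneousComponent i v * g).IsHomogeneous (i + 4) :=
      (homogeneousComponent_isHomogeneous i v).mul hg
    rw [homogeneousComponent_of_mem h3]
    by_cases hi : i = 0
    · subst hi
      rw [if_pos rfl, if_pos rfl, homogeneousComponent_zero]
    · rw [if_neg (by omega), if_neg hi]
  rw [Finset.sum_congr rfl fun i _ => h2 i, Finset.sum_ite_eq', if_pos (by simp)]

theorem lin_indep (d : Fin 3 → K) (h : ∑ k, C (d k) * (hc k : MvPolynomial (Fin 6) K) = 0) :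
    ∀ k, d k = 0 := by
  classical
  intro l
  have h1 : coeff (ind (ham l)) (∑ k, C (d k) * (hc k : MvPolynomial (Fin 6) K)) = 0 := by
    rw [h, coeff_zero]
  rw [coeff_sum, Finset.sum_eq_single l] at h1
  · unfold hc at h1
    rwa [coeff_C_mul, coeff_monomial, if_pos rfl, mul_one] at h1
  · intro k _ hk
    unfold hc
    rw [coeff_C_mul, coeff_monomial, if_neg, mul_zero]
    intro h
    apply hk
    have h0 := DFunLike.congr_fun h 0
    have h2 := DFunLike.congr_fun h 2
    have h4 := DFunLike.congr_fun h 4
    rw [ind_apply, ind_apply] at h0 h2 h4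
    exact hinj0 k l h0 h2 h4
  · intro hl
    exact absurd (Finset.mem_univ l) hl

theorem not_linear : ¬ HasLinearResolution (component (symbolicPower (I₀ K) 2) 4) 4 := by
  classical
  rintro ⟨b, g, D, hg, hD, hspan, hex, -, -⟩
  have hcomp : component (symbolicPower (I₀ K) 2) 4 ≤ symbolicPower (I₀ K) 2 := by
    unfold component
    rw [Ideal.span_le]
    exact fun f hf => hf.1
  -- expansions of the generators
  have hgc : ∀ a, ∃ c : Fin 3 → K, g a = ∑ k, C (c k) * hc k := by
    intro a
    have h1 : g a ∈ symbolicPower (I₀ K) 2 := by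
      apply hcomp
      rw [← hspan]
      exact Ideal.subset_span ⟨a, rfl⟩
    exact ⟨_, eq_combination (g a) h1 (hg a)⟩
  choose c hc' using hgc
  -- expansions of the Hamilton cycles
  have hhc : ∀ k, ∃ u : Fin (b 0) → K, (hc k : MvPolynomial (Fin 6) K) = ∑ a, C (u a) * g a := by
    intro k
    have h1 : (hc k : MvPolynomial (Fin 6) K) ∈ Ideal.span (Set.range g) := by
      rw [hspan]
      exact Ideal.subset_span ⟨hc_mem k, hc_homog k⟩
    obtain ⟨v, hv⟩ := (Ideal.mem_span_range_iff_exists_fun).1 h1
    refine ⟨fun a => coeff 0 (v a), ?_⟩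
    have h2 : homogeneousComponent 4 (hc k : MvPolynomial (Fin 6) K) = hc k := by
      rw [homogeneousComponent_of_mem (hc_homog k), if_pos rfl]
    rw [← h2, ← hv, map_sum]
    exact Finset.sum_congr rfl fun a _ => comp_mul (v a) (g a) (hg a)
  choose u hu using hhc
  -- duality
  have hdual : ∀ k l, ∑ a, u k a * c a l = if k = l then 1 else 0 := by
    intro k l
    have h1 : ∑ l, C (∑ a, u k a * c a l - if k = l then 1 else 0) *
        (hc l : MvPolynomial (Fin 6) K) = 0 := by
      have h2 : (hc k : MvPolynomial (Fin 6) K) = ∑ l, C (if k = l then (1 : K) else 0) * hc l := by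
        rw [Finset.sum_eq_single k]
        · rw [if_pos rfl, C_1, one_mul]
        · intro l _ hl
          rw [if_neg (Ne.symm hl), C_0, zero_mul]
        · intro h
          exact absurd (Finset.mem_univ k) h
      have h3 : (hc k : MvPolynomial (Fin 6) K) = ∑ l, C (∑ a, u k a * c a l) * hc l := by
        rw [hu k]
        have h4 : ∀ a, C (u k a) * g a = ∑ l, C (u k a * c a l) * hc l := by
          intro a
          rw [hc' a, Finset.mul_sum]
          refine Finset.sum_congr rfl fun l _ => ?_
          rw [C_mul]
          ring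
        rw [Finset.sum_congr rfl fun a _ => h4 a, Finset.sum_comm]
        refine Finset.sum_congr rfl fun l _ => ?_
        rw [map_sum, Finset.sum_mul]
      have h5 : ∀ l, C (∑ a, u k a * c a l - if k = l then 1 else 0) *
          (hc l : MvPolynomial (Fin 6) K) = C (∑ a, u k a * c a l) * hc l -
            C (if k = l then (1 : K) else 0) * hc l := by
        intro l
        rw [C_sub, sub_mul]
      rw [Finset.sum_congr rfl fun l _ => h5 l, Finset.sum_sub_distrib, ← h3, ← h2, sub_self]
    exact sub_eq_zero.1 (lin_indep _ h1 l)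
  -- the relation
  set x : MvPolynomial (Fin 6) K := monomial (Finsupp.single 0 1 + Finsupp.single 1 1) 1 with hx
  set y : MvPolynomial (Fin 6) K := monomial (Finsupp.single 2 1 + Finsupp.single 3 1) 1 with hy
  have hxy : x * hc 0 = y * hc 1 := by
    have e : Finsupp.single 0 1 + Finsupp.single 1 1 + ind (ham 0) =
        Finsupp.single 2 1 + Finsupp.single 3 1 + ind (ham 1) := by
      ext i
      rw [Finsupp.add_apply, Finsupp.add_apply, Finsupp.add_apply, Finsupp.add_apply,
        Finsupp.single_apply, Finsupp.single_apply, Finsupp.single_apply, Finsupp.single_apply,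
        ind_apply, ind_apply]
      revert i
      decide
    rw [hx, hy]
    unfold hc
    rw [monomial_mul, monomial_mul, e]
  set v : Fin (b 0) → MvPolynomial (Fin 6) K := fun a => x * C (u 0 a) - y * C (u 1 a) with hv
  have hv0 : ∑ a, v a * g a = 0 := by
    have h1 : ∑ a, v a * g a = x * ∑ a, C (u 0 a) * g a - y * ∑ a, C (u 1 a) * g a := by
      rw [Finset.mul_sum, Finset.mul_sum, ← Finset.sum_sub_distrib]
      refine Finset.sum_congr rfl fun a _ => ?_
      rw [hv]
      ring
    rw [h1, ← hu, ← hu, hxy, sub_self]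
  obtain ⟨w, hw⟩ := (hex v).1 hv0
  -- the columns
  have hcol : ∀ e, ∑ a, C (c a 0) * D 0 a e = 0 := by
    intro e
    refine linear_rel (fun k => ∑ a, C (c a k) * D 0 a e) ?_ ?_
    · intro k
      refine IsHomogeneous.sum _ _ _ fun a _ => ?_
      have := (isHomogeneous_C (Fin 6) (c a k)).mul (hD 0 a e)
      rwa [zero_add] at this
    · have h1 := (hex (fun a => D 0 a e)).2 ⟨Pi.single e 1, by
        rw [Matrix.mulVec_single_one]
        rfl⟩
      rw [← h1]
      simp only [Finset.sum_mul]
      rw [Finset.sum_comm]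
      refine Finset.sum_congr rfl fun a _ => ?_
      rw [hc' a, Finset.mul_sum]
      refine Finset.sum_congr rfl fun k _ => ?_
      ring
  have hfin : ∑ a, C (c a 0) * v a = 0 := by
    rw [hw]
    simp only [Matrix.mulVec, dotProduct, Finset.mul_sum]
    rw [Finset.sum_comm]
    refine Finset.sum_eq_zero fun e _ => ?_
    have := hcol e
    calc ∑ a, C (c a 0) * (D 0 a e * w e) = (∑ a, C (c a 0) * D 0 a e) * w e := by
          rw [Finset.sum_mul]
          refine Finset.sum_congr rfl fun a _ => ?_
          ring
      _ = 0 := by rw [this, zero_mul]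
  have hfin2 : ∑ a, C (c a 0) * v a = x := by
    have h1 : ∑ a, C (c a 0) * v a =
        x * C (∑ a, u 0 a * c a 0) - y * C (∑ a, u 1 a * c a 0) := by
      rw [map_sum, map_sum, Finset.mul_sum, Finset.mul_sum, ← Finset.sum_sub_distrib]
      refine Finset.sum_congr rfl fun a _ => ?_
      rw [hv, C_mul, C_mul]
      ring
    rw [h1, hdual, hdual, if_pos rfl, if_neg (by decide), C_1, C_0]
    ring
  rw [hfin] at hfin2
  have : (1 : K) = 0 := by
    have h1 : coeff (Finsupp.single 0 1 + Finsupp.single 1 1) x = 0 := by
      rw [← hfin2, coeff_zero]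
    rw [hx, coeff_monomial, if_pos rfl] at h1
    exact h1
  exact one_ne_zero this

end Q247.SP
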